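import Pool.Agent.Q64.LP.All

/-!
# MP_8e48cc_an, Q1: DISPROOF

For `n = 3`, `p = 5/4` and Lebesgue measure (`w = 1`, which is `5/4`-admissible with Sobolev
exponent `κ = 12/7`, and `5/4 ≤ 1 + 1/κ = 19/12`) there are an admissible `𝒜` and a supersolution
`u` in the unit ball of `ℝ³` whose essential lower limit at `0` is `≤ 0`, whereas its averages over
all the balls `B(0,r)`, `0 < r ≤ 1/10000`, are `≥ 1/100`. So no representative of `u` satisfies both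
equalities of the question at the point `0`.
-/

open MeasureTheory Filter Topology Set Metric
open scoped ENNReal NNReal RealInnerProductSpace ContDiff Gradient

namespace Pool.Agent.Results.MP_8e48cc_an.LowerLimitIsNotTheAverage

abbrev E (n : ℕ) := EuclideanSpace ℝ (Fin n)

/-- the measure `dμ = w dx` -/
noncomputable def wm {n : ℕ} (w : E n → ℝ) : Measure (E n) :=
  (volume : Measure (E n)).withDensity (fun x => ENNReal.ofReal (w x))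

/-- `φ ∈ C_0^∞(D)` -/
def IsTest {n : ℕ} (D : Set (E n)) (φ : E n → ℝ) : Prop :=
  ContDiff ℝ ∞ φ ∧ HasCompactSupport φ ∧ tsupport φ ⊆ D

/-- `w` is a `p`-admissible weight, `κ > 1` being the exponent of the Sobolev inequality (III). -/
structure Admissible (n : ℕ) (p κ : ℝ) (w : E n → ℝ) : Prop where
  one_lt : 1 < κ
  meas : Measurable w
  nonneg : ∀ x, 0 ≤ w x
  /-- (I) `0 < w < ∞` a.e. and `μ` is doubling -/
  pos : ∀ᵐ x ∂(volume : Measure (E n)), 0 < w x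
  locInt : LocallyIntegrable w (volume : Measure (E n))
  doubling : ∃ C : ℝ≥0, ∀ (x : E n) (r : ℝ), 0 < r → wm w (ball x (2 * r)) ≤ C * wm w (ball x r)
  /-- (II) -/
  closable : ∀ (D : Set (E n)), IsOpen D → ∀ (φ : ℕ → E n → ℝ) (v : E n → E n),
    (∀ i, IsTest D (φ i)) → Measurable v →
    Tendsto (fun i => ∫⁻ x in D, ENNReal.ofReal (|φ i x| ^ p) ∂(wm w)) atTop (𝓝 0) →
    Tendsto (fun i => ∫⁻ x in D, ENNReal.ofReal (‖∇ (φ i) x - v x‖ ^ p) ∂(wm w)) atTop (𝓝 0) →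
    ∀ᵐ x ∂((wm w).restrict D), v x = 0
  /-- (III) -/
  sobolev : ∃ C : ℝ, 0 < C ∧ ∀ (x : E n) (r : ℝ), 0 < r → ∀ φ : E n → ℝ, IsTest (ball x r) φ →
    ((∫⁻ y in ball x r, ENNReal.ofReal (|φ y| ^ (κ * p)) ∂(wm w)) / wm w (ball x r)) ^ (1 / (κ * p))
      ≤ ENNReal.ofReal (C * r) *
        ((∫⁻ y in ball x r, ENNReal.ofReal (‖∇ φ y‖ ^ p) ∂(wm w)) / wm w (ball x r)) ^ (1 / p)
  /-- (IV) -/
  poincare : ∃ C : ℝ, 0 < C ∧ ∀ (x : E n) (r : ℝ), 0 < r → ∀ φ : E n → ℝ,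
    ContDiffOn ℝ ∞ φ (ball x r) → (∃ M : ℝ, ∀ y ∈ ball x r, |φ y| ≤ M) →
    ∫⁻ y in ball x r, ENNReal.ofReal (|φ y - ⨍ z in ball x r, φ z ∂(wm w)| ^ p) ∂(wm w)
      ≤ ENNReal.ofReal (C * r ^ p) * ∫⁻ y in ball x r, ENNReal.ofReal (‖∇ φ y‖ ^ p) ∂(wm w)

/-- the structure conditions for `𝒜(x,h)` with the weight `w` -/
structure IsStructure (n : ℕ) (p : ℝ) (w : E n → ℝ) (A : E n → E n → E n) : Prop where
  meas : ∀ h, Measurable (fun x => A x h)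
  cont : ∀ x, Continuous (A x)
  bounds : ∃ α β : ℝ, 0 < α ∧ α ≤ β ∧ ∀ x h : E n,
    α * w x * ‖h‖ ^ p ≤ ⟪A x h, h⟫ ∧ ‖A x h‖ ≤ β * w x * ‖h‖ ^ (p - 1)
  mono : ∀ x h₁ h₂ : E n, h₁ ≠ h₂ → 0 < ⟪A x h₁ - A x h₂, h₁ - h₂⟫
  homog : ∀ (x h : E n) (t : ℝ), t ≠ 0 → A x (t • h) = (t * |t| ^ (p - 2)) • A x h

/-- `u ∈ H^{1,p}_loc(Ω; μ)` with gradient `G`: on every compact `K ⊆ Ω` the pair `(u, G)` is the
limit in `L^p(K; μ)` of pairs `(φ_i, ∇φ_i)` with smooth `φ_i`. -/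
def HasGrad {n : ℕ} (p : ℝ) (w : E n → ℝ) (Ω : Set (E n)) (u : E n → ℝ) (G : E n → E n) : Prop :=
  Measurable u ∧ Measurable G ∧ ∀ K : Set (E n), IsCompact K → K ⊆ Ω → ∃ φ : ℕ → E n → ℝ,
    (∀ i, ContDiff ℝ ∞ (φ i)) ∧
    Tendsto (fun i => ∫⁻ x in K, ENNReal.ofReal (|φ i x - u x| ^ p) ∂(wm w)) atTop (𝓝 0) ∧
    Tendsto (fun i => ∫⁻ x in K, ENNReal.ofReal (‖∇ (φ i) x - G x‖ ^ p) ∂(wm w)) atTop (𝓝 0)

/-- `u ∈ H^{1,p}_loc(Ω; μ)` is a supersolution of `-div 𝒜(x,∇u) = 0` in `Ω`. -/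
def IsSupersolution {n : ℕ} (p : ℝ) (w : E n → ℝ) (A : E n → E n → E n) (Ω : Set (E n))
    (u : E n → ℝ) : Prop :=
  ∃ G : E n → E n, HasGrad p w Ω u G ∧ ∀ φ : E n → ℝ, IsTest Ω φ → (∀ x, 0 ≤ φ x) →
    Integrable (fun x => ⟪A x (G x), ∇ φ x⟫) (volume : Measure (E n)) ∧
    0 ≤ ∫ x, ⟪A x (G x), ∇ φ x⟫

/-- the essential lower limit: the supremum over `r > 0` with `B(x,r) ⊆ Ω` of the essential infimum
of `u` on `B(x,r)` -/
noncomputable def lowerLim {n : ℕ} (w : E n → ℝ) (Ω : Set (E n)) (u : E n → ℝ) (x : E n) : EReal :=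
  ⨆ (r : ℝ) (_ : 0 < r) (_ : ball x r ⊆ Ω),
    essInf (fun y => ((u y : ℝ) : EReal)) ((wm w).restrict (ball x r))

/-- a representative with both properties of the question exists -/
def GoodRepresentative {n : ℕ} (w : E n → ℝ) (Ω : Set (E n)) (u : E n → ℝ) : Prop :=
  ∃ v : E n → EReal, LowerSemicontinuousOn v Ω ∧
    (∀ᵐ x ∂((wm w).restrict Ω), v x = ((u x : ℝ) : EReal)) ∧
    ∀ x ∈ Ω, v x = lowerLim w Ω u x ∧
      Tendsto (fun r : ℝ => ((⨍ y in ball x r, u y ∂(wm w) : ℝ) : EReal)) (𝓝[>] 0) (𝓝 (v x))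

theorem result :
    ∃ (A : E 3 → E 3 → E 3) (u : E 3 → ℝ),
    Admissible 3 (5 / 4) (12 / 7) (fun _ => 1) ∧
    (5 / 4 : ℝ) ≤ 1 + 1 / (12 / 7) ∧
    IsStructure 3 (5 / 4) (fun _ => 1) A ∧
    IsSupersolution (5 / 4) (fun _ => 1) A (ball 0 1) u ∧
    IntegrableOn u (ball (0 : E 3) 1) ∧
    lowerLim (fun _ => 1) (ball 0 1) u 0 ≤ 0 ∧
    (∀ r : ℝ, 0 < r → r ≤ 1 / 10000 → 1 / 100 ≤ ⨍ y in ball (0 : E 3) r, u y) ∧
    ¬ GoodRepresentative (fun _ => 1) (ball (0 : E 3) 1) u := by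
  obtain ⟨A, u, adm, h1, hA, ⟨G, hG, hs⟩, hi, hl, ha, hn⟩ := Pool.Agent.Q64.LP.t_ALL
  exact ⟨A, u, ⟨adm.one_lt, adm.meas, adm.nonneg, adm.pos, adm.locInt, adm.doubling, adm.closable,
    adm.sobolev, adm.poincare⟩, h1, ⟨hA.meas, hA.cont, hA.bounds, hA.mono, hA.homog⟩,
    ⟨G, hG, hs⟩, hi, hl, ha, hn⟩

end Pool.Agent.Results.MP_8e48cc_an.LowerLimitIsNotTheAverage
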